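import Pool.Agent.Lib.MP_ac385c_lc.SqPart1
import Pool.Agent.Lib.MP_ac385c_lc.SqPart2

/-!
# Sums of square roots: `r(n, k) = O(n^(-2k + 1/2))` for every `k ≥ 2` (MP_ac385c_lc)

`SqGap.r n k` is the least nonzero gap between two sums of `k` square roots of integers in
`{1, …, n}`.

For natural `a` put `v = a (a + 1)`; the function `(√((t+1)²-v) + √((t-1)²-v)) / 2` defines a
linear functional `L` on polynomials (with `√(t²-x)` instead of `x^m` as test functions). `L` has
a quadrature formula with `2k - 2` rational nodes, exact in degrees `< 2k` and not exact in degree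
`2k`, with `k` positive and `k - 2` negative rational weights (if `a` is large): a chain of rational
transformations (the point `3S` on an elliptic curve at every step) produces it.
-/

namespace Pool.Agent.Results.MP_ac385c_lc.UpperAllK

theorem result : ∀ k : ℕ, 2 ≤ k → ∃ C : ℝ, ∀ n : ℕ, 2 ≤ n →
    SqGap.r n k ≤ C * (n : ℝ) ^ ((1 : ℝ) / 2 - 2 * (k : ℝ)) := by
  intro k hk
  obtain ⟨t, rfl⟩ : ∃ t, k = t + 2 := ⟨k - 2, by omega⟩
  obtain ⟨v, y, lam, h1, h2, h3, h4⟩ := SqGap.part2 t
  refine SqGap.part1 (t + 2) hk v y lam ?_ ?_ h3 h4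
  · have e1 : (Finset.univ.filter fun j => 0 < lam j) =
        (Finset.univ : Finset (Fin (t + 2))).map Function.Embedding.inl := by
      ext j
      rw [Finset.mem_filter, Finset.mem_map]
      rcases j with j | j
      · exact ⟨fun _ => ⟨j, Finset.mem_univ _, rfl⟩, fun _ => ⟨Finset.mem_univ _, h1 j⟩⟩
      · refine ⟨fun h => absurd h.2 (not_lt.2 (h2 j).le), ?_⟩
        rintro ⟨i, -, hi⟩
        cases hi
    rw [e1, Finset.card_map, Finset.card_univ, Fintype.card_fin]
  · have e1 : (Finset.univ.filter fun j => lam j < 0) =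
        (Finset.univ : Finset (Fin t)).map Function.Embedding.inr := by
      ext j
      rw [Finset.mem_filter, Finset.mem_map]
      rcases j with j | j
      · refine ⟨fun h => absurd h.2 (not_lt.2 (h1 j).le), ?_⟩
        rintro ⟨i, -, hi⟩
        cases hi
      · exact ⟨fun _ => ⟨j, Finset.mem_univ _, rfl⟩, fun _ => ⟨Finset.mem_univ _, h2 j⟩⟩
    rw [e1, Finset.card_map, Finset.card_univ, Fintype.card_fin]
    omega

end Pool.Agent.Results.MP_ac385c_lc.UpperAllK
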